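import Pool.Graph.R_seed8.Y163.Defs
import Pool.Graph.R_seed8.H914R2.HodgeDefs

/-!
# Approximate inverses of the Lefschetz operators: definitions
-/

set_option autoImplicit false

open CategoryTheory AlgebraicGeometry

universe u v

namespace Pool.Agent.H858.AB

open Pool.Agent.H914 Pool.Agent.Y163 VarClass Obj WeilCohomology

variable {k : Type u} [Field k] {𝒱 : VarClass k}

/-- The divisor `∑ pr_t^* E` on `X ^ (n + 1)`. -/
noncomputable def divN (ops : CycleOps 𝒱) {X : 𝒱.Obj} (E : X.Cycles) : ∀ n, (pw X n).Cycles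
  | 0 => E
  | n + 1 => ops.pull (fst X (pw X n)) E + ops.pull (snd X (pw X n)) (divN ops E n)

/-- The divisor `pr^* F + ∑ pr_t^* E` on `Y × X ^ (n + 1)`. -/
noncomputable def divZ (ops : CycleOps 𝒱) {Y X : 𝒱.Obj} (F : Y.Cycles) (E : X.Cycles) (n : ℕ) :
    (Y.prod (pw X n)).Cycles :=
  ops.pull (fst Y (pw X n)) F + ops.pull (snd Y (pw X n)) (divN ops E n)

/-- The self-intersection number `E ^ (dim X)`. -/
noncomputable def selfInt (ops : CycleOps 𝒱) (X : 𝒱.Obj) (E : X.Cycles) : ℚ :=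
  X.V.degCycle (divPow ops E X.dim X.V.fundCycle)

variable {ops : CycleOps 𝒱}

/-- The Lefschetz operator `x ↦ D ^ (dim Z - i) x`. -/
noncomputable def lef (W : WeilCohomology.{u, v} ops) (Z : 𝒱.Obj) (D : Z.Cycles) (i : ℕ) :
    W.H Z →ₗ[W.K] W.H Z :=
  LinearMap.mulLeft W.K (W.cl Z D ^ (Z.dim - i))

/-- The action of a correspondence. -/
noncomputable def act (W : WeilCohomology.{u, v} ops) (Z : 𝒱.Obj) (θ : (Z.prod Z).Cycles) :
    W.H Z →ₗ[W.K] W.H Z :=
  W.corr (W.cl (Z.prod Z) θ)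

/-- The operator `θ ∘ D ^ (dim Z - i)`, for a correspondence `θ`. -/
noncomputable def actLef (W : WeilCohomology.{u, v} ops) (Z : 𝒱.Obj) (D : Z.Cycles)
    (θ : (Z.prod Z).Cycles) (i : ℕ) : W.H Z →ₗ[W.K] W.H Z :=
  act W Z θ ∘ₗ lef W Z D i

/-- The operator `θ ∘ D ^ (dim Z - i) - 1`, for a correspondence `θ`. -/
noncomputable def errOp (W : WeilCohomology.{u, v} ops) (Z : 𝒱.Obj) (D : Z.Cycles)
    (θ : (Z.prod Z).Cycles) (i : ℕ) : W.H Z →ₗ[W.K] W.H Z :=
  actLef W Z D θ i - LinearMap.id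

/-- The rank of the operator `θ ∘ D ^ (dim Z - i) - 1` on `H^i(Z)`. It is zero if and only if `θ`
induces the inverse of `D ^ (dim Z - i)` on the image of `H^i(Z)`. -/
noncomputable def errRank (W : WeilCohomology.{u, v} ops) (Z : 𝒱.Obj) (D : Z.Cycles)
    (θ : (Z.prod Z).Cycles) (i : ℕ) : ℕ :=
  Module.finrank W.K ((W.gr Z i).map (errOp W Z D θ i))

/-- The Betti numbers. -/
noncomputable def betti (W : WeilCohomology.{u, v} ops) (Z : 𝒱.Obj) (i : ℕ) : ℕ :=
  Module.finrank W.K (W.gr Z i)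

/-- The sum of all Betti numbers. -/
noncomputable def bettiSum (W : WeilCohomology.{u, v} ops) (X : 𝒱.Obj) : ℕ :=
  Module.finrank W.K (W.H X)

/-- `b_1(X) > 0`, and the divisor `lam` on `X × X` induces the inverse of `E ^ (dim X - 1)` on
`H^1(X)`, for the cohomology theory `W`. -/
def GoodInDegreeOne (W : WeilCohomology.{u, v} ops) (X : 𝒱.Obj) (E : X.Cycles)
    (lam : (X.prod X).Cycles) : Prop :=
  W.gr X 1 ≠ ⊥ ∧ errRank W X E lam 1 = 0

/-- The number `24 b b' i ^ 2 / n`. -/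
def share (b b' i n : ℕ) : ℚ := 24 * b * b' * i ^ 2 / n

end Pool.Agent.H858.AB
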