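import Pool.Agent.H858.AB.Corr
import Pool.Agent.H858.AB.Data

/-!
# One cycle for all theories
-/

set_option autoImplicit false
set_option linter.unusedSectionVars false
set_option linter.unusedVariables false

open CategoryTheory AlgebraicGeometry Finset

universe u v w

namespace Pool.Agent.H858.AB

open Pool.Agent.H914 hiding iter map_iter
open Pool.Agent.H447 Pool.Agent.W534 VarClass Obj WeilCohomology
open Pool.Agent.H281R3.HT Pool.Agent.W536.RR
open Pool.Agent.Y163 (pw pr tup tup_pr pw_hom_ext pr_zero_succ pr_succ dim_pw HBasis dualEq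
  dualEq_apply mon mon_eq exists_monBasis exists_hbasis)
open Pool.Agent.H858.FC (PP PP_eq PP_gr PP_mul tr_PP PP_alg prod_filter_one)
open Pool.Agent.H858.AD (EE EE_gr EE_mul tr_EE EE_alg exists_unit exists_wbasis)
open Pool.Agent.R940 (repr_zero)

variable {k : Type u} [Field k] {𝒱 : VarClass k} {ops : CycleOps 𝒱}
  {X Y Z S P : 𝒱.Obj}

theorem cl_divN (W : WeilCohomology.{u, v} ops) (E : X.Cycles) : ∀ n,
    W.cl (pw X n) (divN ops E n) = Ln W (W.cl X E) n
  | 0 => rfl
  | n + 1 => by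
    have h1 : W.cl (X.prod (pw X n)) (ops.pull (fst X (pw X n)) E +
        ops.pull (snd X (pw X n)) (divN ops E n)) =
        W.map (fst X (pw X n)) (W.cl X E) + W.map (snd X (pw X n)) (Ln W (W.cl X E) n) := by
      rw [map_add, W.cl_pull, W.cl_pull, cl_divN W E n]
    exact h1

theorem cl_divZ (W : WeilCohomology.{u, v} ops) (F : Y.Cycles) (E : X.Cycles) (n : ℕ) :
    W.cl _ (divZ ops F E n) = LZ W (W.cl Y F) (W.cl X E) n := by
  rw [divZ, map_add, W.cl_pull, W.cl_pull, cl_divN, LZ]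

theorem tr_selfInt (W : WeilCohomology.{u, v} ops) {E : X.Cycles} (hE : X.IsCyc 1 E) :
    W.tr X (W.cl X E ^ X.dim) = (selfInt ops X E : W.K) := by
  have h1 := divPow_mem (ops := ops) hE X.dim X.V.fundCycle_mem
  rw [zero_add] at h1
  rw [selfInt, ← W.tr_cl h1, cl_divPow, W.cl_fund]
  congr 1
  have : ∀ r : ℕ, W.cl X E ^ r = (LinearMap.mulLeft W.K (W.cl X E) ^ r) 1 := by
    intro r
    induction r with
    | zero =>
      rw [pow_zero, pow_zero]
      rfl
    | succ r ih => rw [pow_succ', pow_succ', Module.End.mul_apply, ← ih, LinearMap.mulLeft_apply]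
  exact this _

/-- The enumeration of the elements of a set of factors. -/
theorem exists_list {n m : ℕ} (T : Finset (Fin (n + 1))) (hT : T.card = m + 1) :
    ∃ τ : Fin (m + 1) → Fin (n + 1), Function.Injective τ ∧ (∀ t, t ∈ T ↔ ∃ i, τ i = t) ∧
      (List.finRange (n + 1)).filter (fun t => t ∈ T) = List.ofFn τ := by
  classical
  set F : List (Fin (n + 1)) := (List.finRange (n + 1)).filter (fun t => t ∈ T) with hF
  have hFT : F.toFinset = T := by
    ext t
    rw [List.mem_toFinset, hF, List.mem_filter]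
    simp
  have hFn : F.Nodup := (List.nodup_finRange _).filter _
  have hlen : F.length = m + 1 := by
    rw [← List.toFinset_card_of_nodup hFn, hFT, hT]
  obtain ⟨τ, hτ⟩ : ∃ τ : Fin (m + 1) → Fin (n + 1), F = List.ofFn τ := by
    refine ⟨fun i => F.get (i.cast hlen.symm), ?_⟩
    apply List.ext_getElem
    · rw [List.length_ofFn, hlen]
    · intro i hi hi'
      rw [List.getElem_ofFn]
      rfl
  have hinj : Function.Injective τ := by
    rw [← List.nodup_ofFn, ← hτ]
    exact hFn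
  refine ⟨τ, hinj, fun t => ?_, hτ⟩
  rw [← hFT, List.mem_toFinset, hτ, List.mem_ofFn]

theorem enum_PP (W : WeilCohomology.{u, v} ops) {n m : ℕ} {T : Finset (Fin (n + 1))}
    {τ : Fin (m + 1) → Fin (n + 1)} (hinj : Function.Injective τ)
    (hmem : ∀ t, t ∈ T ↔ ∃ i, τ i = t)
    (hτ : (List.finRange (n + 1)).filter (fun t => t ∈ T) = List.ofFn τ)
    (w : Fin (m + 1) → W.H X) : W.map (tup m fun i => pr X n (τ i)) (PP W X m w) =
        PP W X n (Function.extend τ w fun _ => 1) := by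
  rw [PP_eq, PP_eq, map_list_prod, List.map_ofFn]
  have h1 : (List.ofFn fun t => W.map (pr X n t) (Function.extend τ w (fun _ => 1) t)).prod =
      (((List.finRange (n + 1)).filter (fun t => t ∈ T)).map fun t =>
        W.map (pr X n t) (Function.extend τ w (fun _ => 1) t)).prod := by
    rw [List.ofFn_eq_map, prod_filter_one (fun t => t ∈ T)
      (fun t => W.map (pr X n t) (Function.extend τ w (fun _ => 1) t)) (fun t ht => ?_)]
    rw [Function.extend_apply' _ _ _ (fun h => ht ((hmem t).2 h)), map_one]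
  rw [h1, hτ, List.map_ofFn]
  congr 2
  funext i
  rw [Function.comp_apply, Function.comp_apply, ← W.map_comp, tup_pr, hinj.extend_apply]

/-- The factor of the leading term. -/
noncomputable def kap (ops : CycleOps 𝒱) (Y X : 𝒱.Obj) (F : Y.Cycles) (E : X.Cycles) {n m : ℕ}
    (τ : Fin (m + 1) → Fin (n + 1)) : ℚ :=
  ((Y.dim + ∑ t, ex X.dim τ t).choose Y.dim * mult n (ex X.dim τ) : ℕ) * selfInt ops Y F *
    selfInt ops X E ^ (n - m)

/-- The cycle. -/
noncomputable def cyc (ops : CycleOps 𝒱) (Y X : 𝒱.Obj) (F : Y.Cycles) (E : X.Cycles)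
    (lam : (X.prod X).Cycles) {n m : ℕ}
    (τ : {T : Finset (Fin (n + 1)) // T.card = m + 1} → Fin (m + 1) → Fin (n + 1)) :
    ((Y.prod (pw X n)).prod (Y.prod (pw X n))).Cycles :=
  ∑ T, (kap ops Y X F E (τ T))⁻¹ • ops.pull (sq (pj Y X (τ T))) (powCyc ops lam m)

theorem cyc_mem {F : Y.Cycles} {E : X.Cycles} {lam : (X.prod X).Cycles}
    (hl : (X.prod X).IsCyc 1 lam) {n m : ℕ}
    (τ : {T : Finset (Fin (n + 1)) // T.card = m + 1} → Fin (m + 1) → Fin (n + 1)) :
    ((Y.prod (pw X n)).prod (Y.prod (pw X n))).IsCyc (m + 1) (cyc ops Y X F E lam τ) := by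
  rw [cyc]
  refine Finset.sum_induction _ (fun u => ((Y.prod (pw X n)).prod (Y.prod (pw X n))).IsCyc (m + 1) u)
    (fun a b => SmVar.IsCyc.add) (SmVar.IsCyc.zero _ _) (fun T _ => SmVar.IsCyc.smul _ ?_)
  have h1 := powCyc_mem (ops := ops) hl m
  rw [mul_one] at h1
  exact ops.pull_mem _ h1

section

variable {W : WeilCohomology.{u, v} ops}

theorem corr_sum {α : Type*} (s : Finset α) (c : α → W.H (Z.prod Z)) (x : W.H Z) :
    W.corr (∑ t ∈ s, c t) x = ∑ t ∈ s, W.corr (c t) x := by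
  rw [corr_apply, Finset.sum_mul, map_sum]
  rfl

/-- The correspondence inverts the Lefschetz operator on the good words. -/
theorem good_pj {F : Y.Cycles} (hF : Y.IsCyc 1 F) {E : X.Cycles} (hE : X.IsCyc 1 E)
    {lam : (X.prod X).Cycles} (hl : (X.prod X).IsCyc 1 lam) (hFd : selfInt ops Y F ≠ 0)
    (hEd : selfInt ops X E ≠ 0) (hd : 0 < X.dim)
    (hinv : ∀ x ∈ W.gr X 1, W.corr (W.cl _ lam) (W.cl X E ^ (X.dim - 1) * x) = x) {n m : ℕ}
    {τ : {T : Finset (Fin (n + 1)) // T.card = m + 1} → Fin (m + 1) → Fin (n + 1)}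
    (hτ : ∀ T, Function.Injective (τ T)) (hmem : ∀ T t, t ∈ T.1 ↔ ∃ i, τ T i = t)
    (hlist : ∀ T, (List.finRange (n + 1)).filter (fun t => t ∈ T.1) = List.ofFn (τ T))
    (T : {T : Finset (Fin (n + 1)) // T.card = m + 1}) {b : Fin (m + 1) → W.H X}
    (hb : ∀ i, b i ∈ W.gr X 1) {r : ℕ} (hr : r + (m + 1) = Y.dim + (n + 1) * X.dim) :
    W.corr (W.cl _ (cyc ops Y X F E lam τ)) (LZ W (W.cl Y F) (W.cl X E) n ^ r *
      W.map (pj Y X (τ T)) (PP W X m b)) = W.map (pj Y X (τ T)) (PP W X m b) := by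
  classical
  have hP := fun T => enum_PP (X := X) W (hτ T) (hmem T) (hlist T)
  have hκ : (kap ops Y X F E (τ T) : W.K) ≠ 0 := by
    rw [Rat.cast_ne_zero, kap]
    refine mul_ne_zero (mul_ne_zero ?_ hFd) (pow_ne_zero _ hEd)
    rw [Nat.cast_ne_zero]
    exact mul_ne_zero (Nat.choose_pos (by omega)).ne' (mult_ne _ _)
  rw [cyc, map_sum, corr_sum, Finset.sum_eq_single T]
  · rw [cl_smul, W.cl_pull, corr_smul, LinearMap.smul_apply, corr_sq,
      push_on (cl_mem_algSpan hF) (W.cl_mem (p := 1) hF) (cl_mem_algSpan hE)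
        (W.cl_mem (p := 1) hE) hd (hτ T) (hP T) hb hr, map_smul, corr_powCyc hl]
    have e1 : (fun i => W.corr (W.cl (X.prod X) lam) (W.cl X E ^ (X.dim - 1) * b i)) = b := by
      funext i
      exact hinv _ (hb i)
    rw [e1, map_smul, smul_smul, tr_selfInt W hF, tr_selfInt W hE]
    have e2 : ((kap ops Y X F E (τ T))⁻¹ : ℚ) * (((Y.dim + ∑ t, ex X.dim (τ T) t).choose Y.dim *
        mult n (ex X.dim (τ T)) : ℕ) * (selfInt ops Y F : W.K) * (selfInt ops X E : W.K) ^ (n - m)) =
        1 := by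
      rw [Rat.cast_inv]
      rw [inv_mul_eq_one₀ hκ, kap]
      push_cast
      ring
    rw [e2, one_smul]
  · intro T' _ hT'
    rw [cl_smul, W.cl_pull, corr_smul, LinearMap.smul_apply, corr_sq,
      push_off (cl_mem_algSpan hF) (cl_mem_algSpan hE) (W.cl_mem (p := 1) hE) (hτ T') (hτ T) (hP T')
        (hP T) ?_ r hb, map_zero, map_zero, smul_zero]
    by_contra hcon
    push Not at hcon
    apply hT'
    have hsub : T.1 ⊆ T'.1 := by
      intro t ht
      obtain ⟨i, rfl⟩ := (hmem T t).1 ht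
      exact (hmem T' _).2 (hcon i)
    exact (Subtype.ext (eq_of_subset_of_card_le hsub (by rw [T.2, T'.2]))).symm
  · intro h
    exact absurd (mem_univ _) h

/-- The good words of the basis are pull-backs. -/
theorem word_eq {ιY ι : Type v} {BY : HBasis W Y ιY} {B : HBasis W X ι} {i0 : ι}
    (h1 : ∃ c : W.K, c ≠ 0 ∧ B.b i0 = c • (1 : W.H X)) {y0 : ιY}
    (h1Y : ∃ c : W.K, c ≠ 0 ∧ BY.b y0 = c • (1 : W.H Y)) {n m : ℕ} {τ : Fin (m + 1) → Fin (n + 1)}
    (hτ : Function.Injective τ)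
    (hP : ∀ w : Fin (m + 1) → W.H X, W.map (tup m fun i => pr X n (τ i)) (PP W X m w) =
        PP W X n (Function.extend τ w fun _ => 1)) {I : Fin (n + 1) → ι}
    (hI : ∀ t, (¬ ∃ i, τ i = t) → I t = i0) :
    ∃ s : W.K, EE W Y X n (BY.b y0) (fun t => B.b (I t)) =
      s • W.map (pj Y X τ) (PP W X m fun i => B.b (I (τ i))) := by
  classical
  obtain ⟨c, hc, h1⟩ := h1
  obtain ⟨cY, hcY, h1Y⟩ := h1Y
  have e1 : (fun t => B.b (I t)) = fun t => (if ∃ i, τ i = t then (1 : W.K) else c) •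
      Function.extend τ (fun i => B.b (I (τ i))) (fun _ => (1 : W.H X)) t := by
    funext t
    by_cases ht : ∃ i, τ i = t
    · rw [if_pos ht, one_smul]
      obtain ⟨i, rfl⟩ := ht
      rw [hτ.extend_apply]
    · rw [if_neg ht, Function.extend_apply' _ _ _ ht, hI t ht, h1]
  refine ⟨cY * ∏ t, (if ∃ i, τ i = t then (1 : W.K) else c), ?_⟩
  rw [map_pj hP, e1, EE, EE, PP_smul, h1Y, map_smul, map_smul, smul_mul_smul_comm]

end

/-- **One cycle for all theories.** -/
theorem main {F : Y.Cycles} (hF : Y.IsCyc 1 F) {E : X.Cycles} (hE : X.IsCyc 1 E)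
    {lam : (X.prod X).Cycles} (hl : (X.prod X).IsCyc 1 lam) (hFd : selfInt ops Y F ≠ 0)
    (hEd : selfInt ops X E ≠ 0) (n m : ℕ) :
    ∃ θ : ((Y.prod (pw X n)).prod (Y.prod (pw X n))).Cycles,
      ((Y.prod (pw X n)).prod (Y.prod (pw X n))).IsCyc (m + 1) θ ∧
      ∀ W : WeilCohomology.{u, v} ops, GoodInDegreeOne W X E lam →
        (errRank W (Y.prod (pw X n)) (divZ ops F E n) θ (m + 1) : ℚ) ≤
          share (bettiSum W X) (bettiSum W Y) (m + 1) (n + 1) *
            betti W (Y.prod (pw X n)) (m + 1) := by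
  classical
  choose τ hτ hmem hlist using fun T : {T : Finset (Fin (n + 1)) // T.card = m + 1} =>
    exists_list T.1 T.2
  refine ⟨cyc ops Y X F E lam τ, cyc_mem hl τ, fun W hW => ?_⟩
  obtain ⟨hX, hinv⟩ := hW
  obtain ⟨x1, hx1, hx10⟩ := (Submodule.ne_bot_iff _).1 hX
  have hd : 0 < X.dim := by
    by_contra hd
    rw [W.gr_eq_bot X 1 (by omega), Submodule.mem_bot] at hx1
    exact hx10 hx1
  have hinv' : ∀ x ∈ W.gr X 1, W.corr (W.cl _ lam) (W.cl X E ^ (X.dim - 1) * x) = x := by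
    intro x hx
    have h1 : errOp W X E lam 1 x = 0 := by
      rw [errRank, Submodule.finrank_eq_zero] at hinv
      rw [← Submodule.mem_bot (R := W.K), ← hinv]
      exact Submodule.mem_map_of_mem hx
    have h2 : W.corr (W.cl _ lam) (W.cl X E ^ (X.dim - 1) * x) - x = 0 := h1
    exact sub_eq_zero.1 h2
  obtain ⟨ι, hι, ⟨B⟩⟩ := exists_hbasis W X
  obtain ⟨ιY, hιY, ⟨BY⟩⟩ := exists_hbasis W Y
  have := Fintype.ofFinite ι
  have := Fintype.ofFinite ιY
  have hX1 : (1 : W.H X) ≠ 0 := by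
    intro h
    apply hx10
    rw [← mul_one x1, h, mul_zero]
  have hY1 : (1 : W.H Y) ≠ 0 := by
    intro h
    apply hFd
    have h2 := tr_selfInt W hF
    rw [← mul_one (W.cl Y F ^ Y.dim), h, mul_zero, map_zero] at h2
    exact_mod_cast h2.symm
  obtain ⟨i0, h0, h1, hi0⟩ := exists_unit (B := B) hX1
  obtain ⟨y0, h0Y, h1Y, hy0⟩ := exists_unit (B := BY) hY1
  obtain ⟨b, hb⟩ := exists_wbasis BY B n
  have hL : Nonempty (Let1 B.deg) := by
    by_contra hcon
    apply hx10
    apply B.b.repr.injective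
    ext i
    rw [map_zero]
    by_contra hne'
    apply hne'
    refine repr_zero (W.isInternal X).submodule_iSupIndep B.b B.deg B.mem hx1 fun hi => ?_
    exact hcon ⟨⟨i, hi⟩⟩
  have hbgr : ∀ a : ιY × (Fin (n + 1) → ι),
      b a ∈ W.gr (Y.prod (pw X n)) (BY.deg a.1 + ∑ t, B.deg (a.2 t)) := by
    intro a
    rw [hb]
    exact EE_gr (BY.mem _) fun t => B.mem _
  -- the Betti number
  have hbetti : (Gd BY.deg B.deg (n + 1) (m + 1)).card ≤ betti W (Y.prod (pw X n)) (m + 1) := by
    have hG : ∀ a : Gd BY.deg B.deg (n + 1) (m + 1), b a.1 ∈ W.gr (Y.prod (pw X n)) (m + 1) := by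
      intro a
      have ha := (mem_filter.1 a.2).2
      have h2 := hbgr a.1
      rwa [ha.1, ha.2.2, zero_add] at h2
    have hli : LinearIndependent W.K (fun a : Gd BY.deg B.deg (n + 1) (m + 1) =>
        (⟨b a.1, hG a⟩ : W.gr (Y.prod (pw X n)) (m + 1))) := by
      refine LinearIndependent.of_comp (W.gr (Y.prod (pw X n)) (m + 1)).subtype ?_
      exact b.linearIndependent.comp _ Subtype.val_injective
    have h2 := hli.fintype_card_le_finrank
    rwa [Fintype.card_coe] at h2
  have hcard : bettiSum W X = Fintype.card ι := Module.finrank_eq_card_basis B.b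
  have hcardY : bettiSum W Y = Fintype.card ιY := Module.finrank_eq_card_basis BY.b
  have hnq : (0 : ℚ) < ((n + 1 : ℕ) : ℚ) := by positivity
  have hb1 : 0 < Fintype.card ι := Fintype.card_pos_iff.2 ⟨i0⟩
  have hb1' : 0 < Fintype.card ιY := Fintype.card_pos_iff.2 ⟨y0⟩
  have hsmall : errRank W (Y.prod (pw X n)) (divZ ops F E n) (cyc ops Y X F E lam τ) (m + 1) ≤
      betti W (Y.prod (pw X n)) (m + 1) := Submodule.finrank_map_le _ _
  rw [hcard, hcardY]
  by_cases hn : 8 * Fintype.card ι * (m + 1) ^ 2 ≤ n + 1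
  swap
  · have h2 : 1 ≤ share (Fintype.card ι) (Fintype.card ιY) (m + 1) (n + 1) := by
      rw [share, le_div_iff₀ hnq, one_mul]
      have h3 : n + 1 ≤ 24 * Fintype.card ι * Fintype.card ιY * (m + 1) ^ 2 := by
        calc n + 1 ≤ 8 * Fintype.card ι * (m + 1) ^ 2 := by omega
          _ ≤ 24 * Fintype.card ι * (m + 1) ^ 2 := by
            refine Nat.mul_le_mul_right _ (Nat.mul_le_mul_right _ (by norm_num))
          _ ≤ _ := by
            rw [mul_assoc _ (Fintype.card ιY)]
            exact Nat.mul_le_mul_left _ (Nat.le_mul_of_pos_left _ hb1')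
      exact_mod_cast h3
    calc (errRank W (Y.prod (pw X n)) (divZ ops F E n) (cyc ops Y X F E lam τ) (m + 1) : ℚ) ≤
        betti W (Y.prod (pw X n)) (m + 1) := by exact_mod_cast hsmall
      _ = 1 * betti W (Y.prod (pw X n)) (m + 1) := (one_mul _).symm
      _ ≤ _ := mul_le_mul_of_nonneg_right h2 (by positivity)
  -- the dimension
  have hmn : m + 1 ≤ n + 1 := by
    have h2 : m + 1 ≤ (m + 1) ^ 2 := Nat.le_self_pow two_ne_zero _
    have h3 : (m + 1) ^ 2 ≤ 8 * Fintype.card ι * (m + 1) ^ 2 := Nat.le_mul_of_pos_left _ (by positivity)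
    omega
  have hdim : (Y.prod (pw X n)).dim = Y.dim + (n + 1) * X.dim := by
    rw [dim_prod, dim_pw]
  have hr : (Y.prod (pw X n)).dim - (m + 1) + (m + 1) = Y.dim + (n + 1) * X.dim := by
    have h2 : n + 1 ≤ (n + 1) * X.dim := Nat.le_mul_of_pos_right _ hd
    omega
  -- the operator vanishes on the good words
  have hgood : ∀ a ∈ Gd BY.deg B.deg (n + 1) (m + 1),
      W.corr (W.cl _ (cyc ops Y X F E lam τ)) (lef W (Y.prod (pw X n)) (divZ ops F E n) (m + 1)
        (b a)) = b a := by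
    intro a ha
    obtain ⟨_, ha1, ha2, ha3⟩ := mem_filter.1 ha
    have hT : (univ.filter fun t => B.deg (a.2 t) = 1).card = m + 1 := by
      rw [card_filter, ← ha3]
      refine sum_congr rfl fun t _ => ?_
      have := ha2 t
      split_ifs <;> omega
    set T : {T : Finset (Fin (n + 1)) // T.card = m + 1} := ⟨univ.filter fun t => B.deg (a.2 t) = 1, hT⟩
      with hTdef
    have hI : ∀ t, (¬ ∃ i, τ T i = t) → a.2 t = i0 := by
      intro t ht
      apply hi0
      have h2 : t ∉ T.1 := fun h => ht ((hmem T t).1 h)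
      rw [hTdef, mem_filter] at h2
      have h3 := ha2 t
      have h4 : ¬ B.deg (a.2 t) = 1 := fun h => h2 ⟨mem_univ _, h⟩
      omega
    obtain ⟨s, hs⟩ := word_eq (BY := BY) h1 h1Y (hτ T) (enum_PP (X := X) W (hτ T) (hmem T) (hlist T))
      (I := a.2) hI
    have hba : b a = s • W.map (pj Y X (τ T)) (PP W X m fun i => B.b (a.2 (τ T i))) := by
      rw [hb, hy0 a.1 ha1, hs]
    have hletters : ∀ i, B.b (a.2 (τ T i)) ∈ W.gr X 1 := by
      intro i
      have h2 : τ T i ∈ T.1 := (hmem T _).2 ⟨i, rfl⟩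
      have h3 := (mem_filter.1 h2).2
      have h4 := B.mem (a.2 (τ T i))
      rwa [h3] at h4
    rw [hba, lef, LinearMap.mulLeft_apply, cl_divZ, mul_smul_comm, map_smul,
      good_pj hF hE hl hFd hEd hd hinv' hτ hmem hlist T hletters hr]
  -- the rank
  have hrank : errRank W (Y.prod (pw X n)) (divZ ops F E n) (cyc ops Y X F E lam τ) (m + 1) ≤
      (Bd BY.deg B.deg (n + 1) (m + 1)).card := by
    set G : W.H (Y.prod (pw X n)) →ₗ[W.K] W.H (Y.prod (pw X n)) :=
      W.corr (W.cl _ (cyc ops Y X F E lam τ)) ∘ₗ lef W (Y.prod (pw X n)) (divZ ops F E n) (m + 1) -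
        LinearMap.id with hG
    have hGgood : ∀ a ∈ Gd BY.deg B.deg (n + 1) (m + 1), G (b a) = 0 := by
      intro a ha
      rw [hG, LinearMap.sub_apply, LinearMap.comp_apply, hgood a ha, LinearMap.id_apply, sub_self]
    have hle : (W.gr (Y.prod (pw X n)) (m + 1)).map (errOp W (Y.prod (pw X n)) (divZ ops F E n)
        (cyc ops Y X F E lam τ) (m + 1)) ≤ Submodule.span W.K
          (((Bd BY.deg B.deg (n + 1) (m + 1)).image fun a => G (b a) : Finset _) : Set _) := by
      rintro _ ⟨x, hx, rfl⟩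
      change G x ∈ _
      rw [← b.sum_repr x, map_sum]
      refine Submodule.sum_mem _ fun a _ => ?_
      rw [map_smul]
      by_cases hdeg : BY.deg a.1 + ∑ t, B.deg (a.2 t) = m + 1
      · by_cases hag : BY.deg a.1 = 0 ∧ ∀ t, B.deg (a.2 t) ≤ 1
        · rw [hGgood a (mem_filter.2 ⟨mem_univ _, hag.1, hag.2, by omega⟩), smul_zero]
          exact Submodule.zero_mem _
        · refine Submodule.smul_mem _ _ (Submodule.subset_span ?_)
          rw [mem_coe]
          exact mem_image_of_mem _ (mem_filter.2 ⟨mem_univ _, hdeg, hag⟩)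
      · rw [repr_zero (W.isInternal _).submodule_iSupIndep b
          (fun a => BY.deg a.1 + ∑ t, B.deg (a.2 t)) hbgr hx hdeg, zero_smul]
        exact Submodule.zero_mem _
    exact (Submodule.finrank_mono hle).trans ((finrank_span_finset_le_card _).trans card_image_le)
  have hBd := card_Bd (degY := BY.deg) (deg := B.deg) hi0 h0Y hy0 (Nat.succ_pos m) hn
  have hGd := card_Gd (degY := BY.deg) (deg := B.deg) h0Y h0 (n + 1) (m + 1)
  calc (errRank W (Y.prod (pw X n)) (divZ ops F E n) (cyc ops Y X F E lam τ) (m + 1) : ℚ) ≤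
      (Bd BY.deg B.deg (n + 1) (m + 1)).card := by exact_mod_cast hrank
    _ ≤ _ := hBd
    _ ≤ share (Fintype.card ι) (Fintype.card ιY) (m + 1) (n + 1) *
        betti W (Y.prod (pw X n)) (m + 1) := by
      rw [share]
      refine mul_le_mul_of_nonneg_left ?_ (by positivity)
      exact_mod_cast hGd.trans hbetti

end Pool.Agent.H858.AB
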