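import Pool.Agent.H858.AD.Cnt

/-!
# Most words have only letters of degree at most one
-/

set_option autoImplicit false
set_option linter.unusedSectionVars false
set_option linter.unusedVariables false

open Finset

namespace Pool.Agent.H858.AB

open Pool.Agent.H858.AD (choose_le geom_le)

/-- The number of small subsets. -/
theorem small_subsets' {n i : ℕ} (hn : 4 * i ≤ n) (hj : 0 < i) (E : ℕ) (hE : E ≤ i) :
    (((univ : Finset (Finset (Fin n))).filter fun S => S.card ≤ E).card : ℚ) ≤
      2 * (2 * i / n : ℚ) ^ (i - E) * n.choose i := by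
  set y : ℚ := 2 * i / n with hy
  have hn0 : 0 < n := by omega
  have hn0q : (0 : ℚ) < n := by exact_mod_cast hn0
  have hy0 : 0 ≤ y := by positivity
  have hy2 : y ≤ 1 / 2 := by
    rw [hy, div_le_iff₀ hn0q]
    have : (4 * i : ℚ) ≤ n := by exact_mod_cast hn
    linarith
  have h1 : ((univ : Finset (Finset (Fin n))).filter fun S => S.card ≤ E).card =
      ∑ L ∈ range (E + 1), n.choose L := by
    rw [card_eq_sum_card_fiberwise (t := range (E + 1)) (f := fun S => S.card)
      (fun S hS => by
        rw [mem_coe, mem_filter] at hS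
        rw [mem_coe, mem_range]
        exact Nat.lt_succ_of_le hS.2)]
    refine sum_congr rfl fun L hL => ?_
    have h2 : ((univ : Finset (Finset (Fin n))).filter fun S => S.card ≤ E).filter
        (fun S => S.card = L) = powersetCard L univ := by
      ext S
      rw [mem_filter, mem_filter, mem_powersetCard]
      have := mem_range.1 hL
      constructor
      · rintro ⟨_, h⟩
        exact ⟨subset_univ _, h⟩
      · rintro ⟨_, h⟩
        exact ⟨⟨mem_univ _, by omega⟩, h⟩
    rw [h2, card_powersetCard, card_univ, Fintype.card_fin]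
  rw [h1]
  push_cast
  calc ∑ L ∈ range (E + 1), (n.choose L : ℚ)
      = ∑ L ∈ range (E + 1), (n.choose (E + 1 - 1 - L) : ℚ) :=
        (sum_range_reflect (fun L => (n.choose L : ℚ)) (E + 1)).symm
    _ ≤ ∑ L ∈ range (E + 1), y ^ (i - E) * n.choose i * y ^ L := by
        refine sum_le_sum fun L hL => ?_
        have hL' := mem_range.1 hL
        have h2 := choose_le (n := n) (L := i) (by omega) hn0 (i - E + L) (by omega)
        have h3 : i - (i - E + L) = E + 1 - 1 - L := by omega
        rw [h3, ← hy] at h2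
        refine h2.trans (le_of_eq ?_)
        rw [pow_add]
        ring
    _ = y ^ (i - E) * n.choose i * ∑ L ∈ range (E + 1), y ^ L := by rw [mul_sum]
    _ ≤ y ^ (i - E) * n.choose i * 2 :=
        mul_le_mul_of_nonneg_left (geom_le hy0 hy2 _) (by positivity)
    _ = _ := by ring

/-- The weighted number of pairs of small subsets. -/
theorem pairs_subsets {n i b : ℕ} (hn : 8 * b * i ^ 2 ≤ n) (hj : 0 < i) (hb : 0 < b) (D : ℕ)
    (hD : D ≤ i) (r0 : ℕ) :
    ∑ B ∈ (univ : Finset (Finset (Fin n))).filter (fun B => r0 ≤ B.card ∧ 2 * B.card ≤ D),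
      (b : ℚ) ^ B.card * ((univ : Finset (Finset (Fin n))).filter fun S => S.card + 2 * B.card ≤ D).card ≤
      4 * (4 * b * i ^ 2 / n : ℚ) ^ r0 * (2 * i / n : ℚ) ^ (i - D) * n.choose i := by
  set y : ℚ := 2 * i / n with hy
  set z : ℚ := 4 * b * i ^ 2 / n with hz
  have h8 : 4 * i ≤ n := by nlinarith [Nat.mul_le_mul hb (Nat.mul_le_mul hj (le_refl i))]
  have hn0 : 0 < n := by omega
  have hn0q : (0 : ℚ) < n := by exact_mod_cast hn0
  have hy0 : 0 ≤ y := by positivity
  have hz0 : 0 ≤ z := by positivity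
  have hz2 : z ≤ 1 / 2 := by
    rw [hz, div_le_iff₀ hn0q]
    have : (8 * b * i ^ 2 : ℚ) ≤ n := by exact_mod_cast hn
    linarith
  have hzy : (n : ℚ) * b * y ^ 2 = z := by
    rw [hz, hy]
    field_simp
    ring
  have h1 : ∀ B ∈ (univ : Finset (Finset (Fin n))).filter (fun B => r0 ≤ B.card ∧ 2 * B.card ≤ D),
      (b : ℚ) ^ B.card * ((univ : Finset (Finset (Fin n))).filter fun S =>
        S.card + 2 * B.card ≤ D).card ≤
      (2 * y ^ (i - D) * n.choose i) * ((b : ℚ) * y ^ 2) ^ B.card := by
    intro B hB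
    have hB' := (mem_filter.1 hB).2.2
    have h2 : ((univ : Finset (Finset (Fin n))).filter fun S => S.card + 2 * B.card ≤ D) =
        ((univ : Finset (Finset (Fin n))).filter fun S => S.card ≤ D - 2 * B.card) :=
      filter_congr fun S _ => by omega
    rw [h2]
    have h3 := small_subsets' (n := n) (i := i) h8 hj (D - 2 * B.card) (by omega)
    have h4 : i - (D - 2 * B.card) = i - D + 2 * B.card := by omega
    rw [h4, ← hy] at h3
    calc (b : ℚ) ^ B.card * _ ≤ (b : ℚ) ^ B.card *
          (2 * y ^ (i - D + 2 * B.card) * n.choose i) :=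
          mul_le_mul_of_nonneg_left h3 (by positivity)
      _ = _ := by
        rw [pow_add, pow_mul, mul_pow]
        ring
  refine (sum_le_sum h1).trans ?_
  rw [← mul_sum]
  have h5 : ∑ B ∈ (univ : Finset (Finset (Fin n))).filter (fun B => r0 ≤ B.card ∧ 2 * B.card ≤ D),
      ((b : ℚ) * y ^ 2) ^ B.card ≤ 2 * z ^ r0 := by
    calc ∑ B ∈ (univ : Finset (Finset (Fin n))).filter (fun B => r0 ≤ B.card ∧ 2 * B.card ≤ D),
        ((b : ℚ) * y ^ 2) ^ B.card
        ≤ ∑ B ∈ (univ : Finset (Finset (Fin n))).filter (fun B => r0 ≤ B.card),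
          ((b : ℚ) * y ^ 2) ^ B.card := by
          refine sum_le_sum_of_subset_of_nonneg ?_ fun _ _ _ => by positivity
          intro B hB
          rw [mem_filter] at hB ⊢
          exact ⟨hB.1, hB.2.1⟩
      _ = ∑ B ∈ (univ : Finset (Fin n)).powerset,
          (if r0 ≤ B.card then ((b : ℚ) * y ^ 2) ^ B.card else 0) := by
          rw [sum_filter]
          refine sum_congr ?_ fun _ _ => rfl
          ext B
          simp
      _ = ∑ r ∈ range (n + 1), n.choose r • (if r0 ≤ r then ((b : ℚ) * y ^ 2) ^ r else 0) := by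
          have := sum_powerset_apply_card (fun r => if r0 ≤ r then ((b : ℚ) * y ^ 2) ^ r else 0)
            (x := (univ : Finset (Fin n)))
          rw [card_univ, Fintype.card_fin] at this
          exact this
      _ ≤ ∑ r ∈ range (n + 1), (if r0 ≤ r then z ^ r else 0) := by
          refine sum_le_sum fun r _ => ?_
          split_ifs with h
          · rw [nsmul_eq_mul, ← hzy]
            have h6 : (n.choose r : ℚ) ≤ (n : ℚ) ^ r := by
              exact_mod_cast Nat.choose_le_pow n r
            calc (n.choose r : ℚ) * ((b : ℚ) * y ^ 2) ^ r ≤ (n : ℚ) ^ r * ((b : ℚ) * y ^ 2) ^ r :=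
                  mul_le_mul_of_nonneg_right h6 (by positivity)
              _ = _ := by rw [← mul_pow, ← mul_assoc]
          · simp
      _ ≤ ∑ r ∈ range (n + 1 + r0), (if r0 ≤ r then z ^ r else 0) := by
          refine sum_le_sum_of_subset_of_nonneg (range_mono (by omega)) fun r _ _ => ?_
          split_ifs
          · positivity
          · exact le_rfl
      _ = ∑ r ∈ range (n + 1), z ^ (r0 + r) := by
          rw [add_comm, sum_range_add]
          have h7 : ∑ r ∈ range r0, (if r0 ≤ r then z ^ r else 0) = 0 :=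
            sum_eq_zero fun r hr => if_neg (by have := mem_range.1 hr; omega)
          rw [h7, zero_add]
          exact sum_congr rfl fun r _ => if_pos (by omega)
      _ = z ^ r0 * ∑ r ∈ range (n + 1), z ^ r := by
          rw [mul_sum]
          exact sum_congr rfl fun r _ => pow_add _ _ _
      _ ≤ z ^ r0 * 2 := mul_le_mul_of_nonneg_left (geom_le hz0 hz2 _) (by positivity)
      _ = _ := by ring
  calc 2 * y ^ (i - D) * (n.choose i : ℚ) * _
      ≤ 2 * y ^ (i - D) * (n.choose i : ℚ) * (2 * z ^ r0) :=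
        mul_le_mul_of_nonneg_left h5 (by positivity)
    _ = _ := by ring


section Words

variable {ι : Type*} [Fintype ι] [DecidableEq ι] (deg : ι → ℕ)

/-- The letters of degree one. -/
abbrev Let1 : Type _ := {l : ι // deg l = 1}

/-- Words with given places for the letters of degree one and for those of larger degree. -/
def WBS {n : ℕ} (B S : Finset (Fin n)) : Finset (Fin n → ι) :=
  univ.filter fun I => (∀ t, t ∈ B ↔ 2 ≤ deg (I t)) ∧ (∀ t, t ∈ S ↔ deg (I t) = 1)

variable {deg}

theorem card_WBS [Nonempty (Let1 deg)] {i0 : ι} (h0 : ∀ i, deg i = 0 → i = i0)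
    {n : ℕ} (B S : Finset (Fin n)) :
    (WBS deg B S).card ≤ Fintype.card ι ^ B.card * Fintype.card (Let1 deg) ^ S.card := by
  classical
  obtain ⟨l0⟩ := ‹Nonempty (Let1 deg)›
  have h1 : (WBS deg B S).card ≤ Fintype.card ((B → ι) × (S → Let1 deg)) := by
    rw [← card_univ]
    refine card_le_card_of_injOn (fun I => (fun t : B => I t,
      fun t : S => if h : deg (I t) = 1 then (⟨I t, h⟩ : Let1 deg) else l0))
      (fun _ _ => mem_coe.2 (mem_univ _)) ?_
    intro I hI I' hI' h
    rw [mem_coe, WBS, mem_filter] at hI hI'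
    obtain ⟨_, hB, hS⟩ := hI
    obtain ⟨_, hB', hS'⟩ := hI'
    have e1 := congrArg Prod.fst h
    have e2 := congrArg Prod.snd h
    funext t
    by_cases h1 : t ∈ B
    · exact congrFun e1 ⟨t, h1⟩
    · by_cases h2 : t ∈ S
      · have := congrFun e2 ⟨t, h2⟩
        simp only [dif_pos ((hS t).1 h2), dif_pos ((hS' t).1 h2)] at this
        exact congrArg Subtype.val this
      · have e3 : I t = i0 := h0 _ (by
          rw [hB] at h1
          rw [hS] at h2
          omega)
        have e4 : I' t = i0 := h0 _ (by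
          rw [hB'] at h1
          rw [hS'] at h2
          omega)
        rw [e3, e4]
  rw [Fintype.card_prod, Fintype.card_fun, Fintype.card_fun, Fintype.card_coe,
    Fintype.card_coe] at h1
  exact h1

/-- The words of total degree `D` with at least `r0` letters of degree at least two. -/
def WD (deg : ι → ℕ) (n D : ℕ) (r0 : ℕ) : Finset (Fin n → ι) :=
  univ.filter fun I => ∑ t, deg (I t) = D ∧ r0 ≤ (univ.filter fun t => 2 ≤ deg (I t)).card

theorem card_WD [Nonempty (Let1 deg)] {i0 : ι} (h0 : ∀ i, deg i = 0 → i = i0)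
    {n i : ℕ} (hi : 0 < i) (hn : 8 * Fintype.card ι * i ^ 2 ≤ n) {D : ℕ} (hD : D ≤ i) (r0 : ℕ) :
    ((WD deg n D r0).card : ℚ) ≤
      4 * (4 * Fintype.card ι * i ^ 2 / n : ℚ) ^ r0 * (2 * i / n : ℚ) ^ (i - D) *
        n.choose i * (Fintype.card (Let1 deg) : ℚ) ^ i := by
  classical
  set b := Fintype.card ι with hb
  have hb0 : 0 < b := by
    rw [hb]
    exact Fintype.card_pos_iff.2 ⟨i0⟩
  have hβ : 0 < Fintype.card (Let1 deg) := Fintype.card_pos
  set M : ℕ := Fintype.card (Let1 deg) ^ i with hM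
  have hsub : WD deg n D r0 ⊆
      ((univ : Finset (Finset (Fin n))).filter (fun B => r0 ≤ B.card ∧ 2 * B.card ≤ D)).biUnion
        fun B => ((univ : Finset (Finset (Fin n))).filter fun S => S.card + 2 * B.card ≤ D).biUnion
          fun S => WBS deg B S := by
    intro I hI
    rw [WD, mem_filter] at hI
    obtain ⟨_, h1, h3⟩ := hI
    have h4 : (univ.filter fun t => deg (I t) = 1).card + 2 * (univ.filter fun t => 2 ≤ deg (I t)).card
        ≤ D := by
      rw [← h1]
      have e1 : ∀ t : Fin n, (if deg (I t) = 1 then 1 else 0) + 2 * (if 2 ≤ deg (I t) then 1 else 0) ≤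
          deg (I t) := by
        intro t
        split_ifs <;> omega
      calc _ = ∑ t, ((if deg (I t) = 1 then 1 else 0) + 2 * (if 2 ≤ deg (I t) then 1 else 0)) := by
            rw [sum_add_distrib, ← mul_sum, card_filter, card_filter]
        _ ≤ _ := sum_le_sum fun t _ => e1 t
    rw [mem_biUnion]
    refine ⟨univ.filter fun t => 2 ≤ deg (I t), ?_, ?_⟩
    · rw [mem_filter]
      exact ⟨mem_univ _, h3, by omega⟩
    · rw [mem_biUnion]
      refine ⟨univ.filter fun t => deg (I t) = 1, ?_, ?_⟩
      · rw [mem_filter]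
        exact ⟨mem_univ _, h4⟩
      · rw [WBS, mem_filter]
        refine ⟨mem_univ _, fun t => ?_, fun t => ?_⟩
        · rw [mem_filter]
          simp
        · rw [mem_filter]
          simp
  have h1 : (WD deg n D r0).card ≤
      ∑ B ∈ (univ : Finset (Finset (Fin n))).filter (fun B => r0 ≤ B.card ∧ 2 * B.card ≤ D),
        b ^ B.card * ((univ : Finset (Finset (Fin n))).filter fun S => S.card + 2 * B.card ≤ D).card
          * M := by
    refine (card_le_card hsub).trans (card_biUnion_le.trans (sum_le_sum fun B hB => ?_))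
    refine card_biUnion_le.trans ?_
    calc _ ≤ ∑ _S ∈ (univ : Finset (Finset (Fin n))).filter fun S => S.card + 2 * B.card ≤ D,
          b ^ B.card * M := sum_le_sum fun S hS => (card_WBS h0 B S).trans
            (Nat.mul_le_mul_left _ (Nat.pow_le_pow_right hβ (by
              have := (mem_filter.1 hS).2
              omega)))
      _ = _ := by
        rw [sum_const, smul_eq_mul]
        ring
  have h2 := pairs_subsets (n := n) (i := i) (b := b) hn hi hb0 D hD r0
  calc ((WD deg n D r0).card : ℚ) ≤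
      ((∑ B ∈ (univ : Finset (Finset (Fin n))).filter (fun B => r0 ≤ B.card ∧ 2 * B.card ≤ D),
        b ^ B.card * ((univ : Finset (Finset (Fin n))).filter fun S => S.card + 2 * B.card ≤ D).card
          * M : ℕ) : ℚ) := by exact_mod_cast h1
    _ = (∑ B ∈ (univ : Finset (Finset (Fin n))).filter (fun B => r0 ≤ B.card ∧ 2 * B.card ≤ D),
        (b : ℚ) ^ B.card * ((univ : Finset (Finset (Fin n))).filter fun S =>
          S.card + 2 * B.card ≤ D).card) * M := by
        push_cast
        rw [sum_mul]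
    _ ≤ (4 * (4 * b * i ^ 2 / n : ℚ) ^ r0 * (2 * i / n : ℚ) ^ (i - D) * n.choose i) * M :=
        mul_le_mul_of_nonneg_right h2 (by positivity)
    _ = _ := by
        rw [hM]
        push_cast
        ring

variable {ιY : Type*} [Fintype ιY] [DecidableEq ιY] {degY : ιY → ℕ}

/-- The good words. -/
def Gd (degY : ιY → ℕ) (deg : ι → ℕ) (n i : ℕ) : Finset (ιY × (Fin n → ι)) :=
  univ.filter fun a => degY a.1 = 0 ∧ (∀ t, deg (a.2 t) ≤ 1) ∧ ∑ t, deg (a.2 t) = i

/-- The other words of degree `i`. -/
def Bd (degY : ιY → ℕ) (deg : ι → ℕ) (n i : ℕ) : Finset (ιY × (Fin n → ι)) :=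
  univ.filter fun a => degY a.1 + ∑ t, deg (a.2 t) = i ∧ ¬ (degY a.1 = 0 ∧ ∀ t, deg (a.2 t) ≤ 1)

theorem card_Gd {y0 : ιY} (hy0 : degY y0 = 0) {i0 : ι} (h0 : deg i0 = 0) (n i : ℕ) :
    n.choose i * Fintype.card (Let1 deg) ^ i ≤ (Gd degY deg n i).card := by
  classical
  have h1 : n.choose i * Fintype.card (Let1 deg) ^ i =
      ((powersetCard i (univ : Finset (Fin n))).sigma fun S =>
        (univ : Finset (S → Let1 deg))).card := by
    rw [card_sigma]
    have e1 : ∀ S ∈ powersetCard i (univ : Finset (Fin n)),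
        (univ : Finset (S → Let1 deg)).card = Fintype.card (Let1 deg) ^ i := by
      intro S hS
      rw [card_univ, Fintype.card_fun, Fintype.card_coe, (mem_powersetCard.1 hS).2]
    rw [sum_congr rfl e1, sum_const, card_powersetCard, card_univ, Fintype.card_fin, smul_eq_mul]
  rw [h1]
  refine card_le_card_of_injOn (fun p => (y0, fun t => if h : t ∈ p.1 then (p.2 ⟨t, h⟩).1 else i0))
    ?_ ?_
  · intro p hp
    rw [mem_coe, mem_sigma, mem_powersetCard] at hp
    rw [mem_coe, Gd, mem_filter]
    refine ⟨mem_univ _, hy0, fun t => ?_, ?_⟩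
    · by_cases ht : t ∈ p.1
      · simp only [dif_pos ht]
        exact (p.2 ⟨t, ht⟩).2.le
      · simp only [dif_neg ht, h0]
        omega
    · have e1 : ∀ t, deg (if h : t ∈ p.1 then (p.2 ⟨t, h⟩).1 else i0) = if t ∈ p.1 then 1 else 0 := by
        intro t
        by_cases ht : t ∈ p.1
        · rw [dif_pos ht, if_pos ht]
          exact (p.2 ⟨t, ht⟩).2
        · rw [dif_neg ht, if_neg ht, h0]
      simp only [e1]
      rw [← card_filter, filter_mem_eq_inter, univ_inter, hp.1.2]
  · intro p hp q hq h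
    rw [mem_coe, mem_sigma, mem_powersetCard] at hp hq
    have h2 : (fun t => if h : t ∈ p.1 then (p.2 ⟨t, h⟩).1 else i0) =
        (fun t => if h : t ∈ q.1 then (q.2 ⟨t, h⟩).1 else i0) := congrArg Prod.snd h
    have key : ∀ (p : (S : Finset (Fin n)) × (S → Let1 deg)) t, t ∈ p.1 ↔
        deg (if h : t ∈ p.1 then (p.2 ⟨t, h⟩).1 else i0) = 1 := by
      intro p t
      by_cases ht : t ∈ p.1
      · rw [dif_pos ht]
        exact ⟨fun _ => (p.2 ⟨t, ht⟩).2, fun _ => ht⟩
      · rw [dif_neg ht, h0]
        exact ⟨fun h => absurd h ht, fun h => absurd h (by omega)⟩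
    obtain ⟨S, f⟩ := p
    obtain ⟨S', f'⟩ := q
    have hSS : S = S' := by
      ext t
      have e1 := key ⟨S, f⟩ t
      have e2 := key ⟨S', f'⟩ t
      simp only at e1 e2
      rw [e1, e2]
      have e3 := congrFun h2 t
      simp only at e3
      rw [e3]
    subst hSS
    congr 1
    funext t
    have e3 := congrFun h2 t.1
    simp only [dif_pos t.2] at e3
    exact Subtype.ext e3

/-- **Most words are good.** -/
theorem card_Bd [Nonempty (Let1 deg)] {i0 : ι} (h0 : ∀ i, deg i = 0 → i = i0) {y0 : ιY}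
    (hy : degY y0 = 0) (hy0 : ∀ y, degY y = 0 → y = y0)
    {n i : ℕ} (hi : 0 < i) (hn : 8 * Fintype.card ι * i ^ 2 ≤ n) :
    ((Bd degY deg n i).card : ℚ) ≤ 24 * Fintype.card ι * Fintype.card ιY * i ^ 2 / n *
      (n.choose i * (Fintype.card (Let1 deg) : ℚ) ^ i) := by
  classical
  set b := Fintype.card ι with hb
  set b' := Fintype.card ιY with hb'
  have hb0 : 0 < b := Fintype.card_pos_iff.2 ⟨i0⟩
  have hb0' : 0 < b' := Fintype.card_pos_iff.2 ⟨y0⟩
  set M : ℚ := n.choose i * (Fintype.card (Let1 deg) : ℚ) ^ i with hM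
  have hM0 : 0 ≤ M := by positivity
  have hn0 : 0 < n := by
    have : 0 < 8 * b * i ^ 2 := by positivity
    omega
  have hn0q : (0 : ℚ) < n := by exact_mod_cast hn0
  have hb1 : (1 : ℚ) ≤ b := by exact_mod_cast hb0
  have hb1' : (1 : ℚ) ≤ b' := by exact_mod_cast hb0'
  have hi1 : (1 : ℚ) ≤ i := by exact_mod_cast hi
  set y : ℚ := 2 * i / n with hy'
  have hy00 : 0 ≤ y := by positivity
  have hy1 : y ≤ 1 := by
    rw [hy', div_le_one hn0q]
    have : (8 * b * i ^ 2 : ℚ) ≤ n := by exact_mod_cast hn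
    nlinarith [mul_le_mul hb1 (mul_le_mul hi1 hi1 (by norm_num) (by linarith)) (by norm_num)
      (by linarith)]
  have hsub : Bd degY deg n i ⊆ (univ.filter fun y : ιY => degY y = 0).product (WD deg n i 1) ∪
      (univ.filter fun y : ιY => 1 ≤ degY y ∧ degY y ≤ i).biUnion
        fun y => ({y} : Finset ιY).product (WD deg n (i - degY y) 0) := by
    intro a ha
    rw [Bd, mem_filter] at ha
    obtain ⟨_, h1, h2⟩ := ha
    rw [mem_union]
    by_cases h3 : degY a.1 = 0
    · left
      refine mem_product.2 ⟨mem_filter.2 ⟨mem_univ _, h3⟩, ?_⟩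
      rw [WD, mem_filter]
      refine ⟨mem_univ _, by omega, ?_⟩
      by_contra h4
      apply h2
      refine ⟨h3, fun t => ?_⟩
      have h5 : (univ.filter fun t => 2 ≤ deg (a.2 t)) = ∅ := card_eq_zero.1 (by omega)
      have h6 : t ∉ (univ.filter fun t => 2 ≤ deg (a.2 t)) := by
        rw [h5]
        exact notMem_empty t
      rw [mem_filter] at h6
      have h7 : ¬ 2 ≤ deg (a.2 t) := fun h => h6 ⟨mem_univ _, h⟩
      omega
    · right
      rw [mem_biUnion]
      refine ⟨a.1, mem_filter.2 ⟨mem_univ _, by omega, by omega⟩, mem_product.2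
        ⟨mem_singleton_self _, ?_⟩⟩
      rw [WD, mem_filter]
      exact ⟨mem_univ _, by omega, Nat.zero_le _⟩
  have h1 : (Bd degY deg n i).card ≤ (WD deg n i 1).card +
      ∑ y ∈ univ.filter (fun y : ιY => 1 ≤ degY y ∧ degY y ≤ i), (WD deg n (i - degY y) 0).card := by
    refine (card_le_card hsub).trans ((card_union_le _ _).trans (Nat.add_le_add ?_ ?_))
    · have e1 : (univ.filter fun y : ιY => degY y = 0) = {y0} := by
        ext y
        rw [mem_filter, mem_singleton]
        exact ⟨fun h => hy0 y h.2, fun h => ⟨mem_univ _, by rw [h, hy]⟩⟩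
      refine (card_product _ _).le.trans ?_
      rw [e1, card_singleton, one_mul]
    · refine card_biUnion_le.trans (sum_le_sum fun y _ => ?_)
      refine (card_product _ _).le.trans ?_
      rw [card_singleton, one_mul]
  have h2 := card_WD (i0 := i0) h0 hi hn (le_refl i) 1
  rw [Nat.sub_self, pow_zero, mul_one, pow_one, mul_assoc _ (n.choose i : ℚ)] at h2
  have h3 : ∀ y' ∈ univ.filter (fun y : ιY => 1 ≤ degY y ∧ degY y ≤ i),
      ((WD deg n (i - degY y') 0).card : ℚ) ≤ 4 * y * M := by
    intro y' hy''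
    obtain ⟨_, hd1, hd2⟩ := mem_filter.1 hy''
    have h4 := card_WD (i0 := i0) h0 hi hn (D := i - degY y') (by omega) 0
    rw [pow_zero, mul_one, mul_assoc _ (n.choose i : ℚ), ← hy', ← hM] at h4
    refine h4.trans ?_
    refine mul_le_mul_of_nonneg_right ?_ hM0
    have h5 : y ^ (i - (i - degY y')) ≤ y := by
      calc y ^ (i - (i - degY y')) ≤ y ^ 1 := pow_le_pow_of_le_one hy00 hy1 (by omega)
        _ = y := pow_one y
    linarith
  have h4 : (∑ y' ∈ univ.filter (fun y : ιY => 1 ≤ degY y ∧ degY y ≤ i),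
      ((WD deg n (i - degY y') 0).card : ℚ)) ≤ b' * (4 * y * M) := by
    refine (sum_le_card_nsmul _ _ _ h3).trans ?_
    rw [nsmul_eq_mul]
    refine mul_le_mul_of_nonneg_right ?_ (by positivity)
    exact_mod_cast (card_filter_le _ _).trans (by rw [card_univ])
  have h5 : ((Bd degY deg n i).card : ℚ) ≤ (WD deg n i 1).card +
      ∑ y' ∈ univ.filter (fun y : ιY => 1 ≤ degY y ∧ degY y ≤ i),
        ((WD deg n (i - degY y') 0).card : ℚ) := by exact_mod_cast h1
  have h6 : 4 * (4 * (b : ℚ) * i ^ 2 / n) + b' * (4 * y) ≤ 24 * b * b' * i ^ 2 / n := by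
    rw [hy']
    have e1 : 4 * (4 * (b : ℚ) * i ^ 2 / n) + b' * (4 * (2 * i / n)) =
        (16 * b * i ^ 2 + 8 * b' * i) / n := by
      field_simp
      ring
    rw [e1]
    refine div_le_div_of_nonneg_right ?_ hn0q.le
    have e2 : (b : ℚ) * i ^ 2 ≤ b * b' * i ^ 2 := by
      have : 0 ≤ (b : ℚ) * i ^ 2 := by positivity
      nlinarith
    have e3 : (b' : ℚ) * i ≤ b * b' * i ^ 2 := by
      have e4 : (i : ℚ) ≤ i ^ 2 := by nlinarith
      have e5 : (b' : ℚ) ≤ b * b' := by nlinarith
      exact mul_le_mul e5 e4 (by positivity) (by positivity)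
    linarith
  calc ((Bd degY deg n i).card : ℚ) ≤ 4 * (4 * b * i ^ 2 / n) * M + b' * (4 * y * M) := by
        refine h5.trans (add_le_add ?_ h4)
        exact h2
    _ = (4 * (4 * b * i ^ 2 / n) + b' * (4 * y)) * M := by ring
    _ ≤ _ := mul_le_mul_of_nonneg_right h6 hM0

end Words

end Pool.Agent.H858.AB
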