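import Pool.Agent.H858.AB.Tr
import Pool.Graph.R_seed8.H914R2.ExtOp

/-!
# The approximate inverse of the Lefschetz operator
-/

set_option autoImplicit false
set_option linter.unusedSectionVars false
set_option linter.unusedVariables false

open CategoryTheory AlgebraicGeometry Finset

universe u v w

namespace Pool.Agent.H858.AB

open Pool.Agent.H914 hiding iter map_iter
open Pool.Agent.H447 Pool.Agent.W534 VarClass Obj WeilCohomology
open Pool.Agent.H281R3.HT Pool.Agent.W536.RR
open Pool.Agent.Y163 (pw pr tup tup_pr pw_hom_ext pr_zero_succ pr_succ dim_pw HBasis dualEq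
  dualEq_apply mon mon_eq exists_monBasis)
open Pool.Agent.H858.FC (PP PP_eq PP_gr PP_mul tr_PP PP_alg prod_filter_one)
open Pool.Agent.H858.AD (EE EE_gr EE_mul tr_EE EE_alg exists_enum)

variable {k : Type u} [Field k] {𝒱 : VarClass k} {ops : CycleOps 𝒱}
  {W : WeilCohomology.{u, v} ops} {X Y Z S P : 𝒱.Obj}

/-- The external power of a correspondence. -/
noncomputable def powCyc (ops : CycleOps 𝒱) {X : 𝒱.Obj} (lam : (X.prod X).Cycles) :
    ∀ m, ((pw X m).prod (pw X m)).Cycles
  | 0 => lam
  | m + 1 => ops.mul (ops.pull (q1 X (pw X m)) lam) (ops.pull (q2 X (pw X m)) (powCyc ops lam m))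

theorem powCyc_mem {lam : (X.prod X).Cycles} {p : ℕ} (h : (X.prod X).IsCyc p lam) :
    ∀ m, ((pw X m).prod (pw X m)).IsCyc ((m + 1) * p) (powCyc ops lam m)
  | 0 => by
    rw [zero_add, one_mul]
    exact h
  | m + 1 => by
    have h1 := ops.mul_mem (ops.pull_mem (q1 X (pw X m)) h) (ops.pull_mem (q2 X (pw X m))
      (powCyc_mem h m))
    rw [show p + (m + 1) * p = (m + 1 + 1) * p by ring] at h1
    exact h1

theorem corr_powCyc {lam : (X.prod X).Cycles} {p : ℕ} (h : (X.prod X).IsCyc p lam) :
    ∀ (m : ℕ) (a : Fin (m + 1) → W.H X), W.corr (W.cl _ (powCyc ops lam m)) (PP W X m a) =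
      PP W X m (fun i => W.corr (W.cl _ lam) (a i))
  | 0, a => rfl
  | m + 1, a => by
    have e1 : W.cl ((X.prod (pw X m)).prod (X.prod (pw X m))) (ops.mul (ops.pull (q1 X (pw X m)) lam)
        (ops.pull (q2 X (pw X m)) (powCyc ops lam m))) = W.map (q1 X (pw X m)) (W.cl _ lam) *
        W.map (q2 X (pw X m)) (W.cl _ (powCyc ops lam m)) := by
      rw [W.cl_mul, W.cl_pull, W.cl_pull]
    change W.corr (W.cl ((X.prod (pw X m)).prod (X.prod (pw X m))) (ops.mul
      (ops.pull (q1 X (pw X m)) lam) (ops.pull (q2 X (pw X m)) (powCyc ops lam m))))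
        (W.map (fst X (pw X m)) (a 0) *
          W.map (snd X (pw X m)) (PP W X m (Fin.tail a))) = W.map (fst X (pw X m))
            (W.corr (W.cl _ lam) (a 0)) * W.map (snd X (pw X m))
              (PP W X m (fun i => W.corr (W.cl _ lam) (Fin.tail a i)))
    rw [e1]
    rw [corr_ext _ (W.cl_mem (powCyc_mem h m)), corr_powCyc h m]

/-- The morphism `g × g`. -/
noncomputable def sq (g : Z ⟶ P) : Z.prod Z ⟶ P.prod P := Obj.lift (fst Z Z ≫ g) (snd Z Z ≫ g)

/-- The pull-back of a correspondence. -/
theorem corr_sq (g : Z ⟶ P) (c : W.H (P.prod P)) (x : W.H Z) :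
    W.corr (W.map (sq g) c) x = W.map g (W.corr c (W.push g x)) := by
  refine W.kunneth_induction (p := fun c => W.corr (W.map (sq g) c) x =
    W.map g (W.corr c (W.push g x))) ?_ ?_ c
  · intro a b ha hb
    rw [map_add, corr_add, corr_add, LinearMap.add_apply, LinearMap.add_apply, map_add, ha, hb]
  · intro i j a ha b hb
    have e1 : W.map (sq g) (W.map (fst P P) a * W.map (snd P P) b) =
        W.map (fst Z Z) (W.map g a) * W.map (snd Z Z) (W.map g b) := by
      rw [map_mul, ← W.map_comp, ← W.map_comp, sq, Obj.lift_fst, Obj.lift_snd, W.map_comp,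
        W.map_comp]
    -- it is enough to compare homogeneous arguments
    have key : ∀ (Q : 𝒱.Obj) (a b y : W.H Q) (i j l : ℕ), a ∈ W.gr Q i → b ∈ W.gr Q j →
        y ∈ W.gr Q l → W.corr (W.map (fst Q Q) a * W.map (snd Q Q) b) y =
          (-1 : W.K) ^ (j * l) • (W.tr Q (a * y) • b) := by
      intro Q a b y i j l ha hb hy
      rw [corr_apply, mul_assoc, W.comm (W.map_mem (snd Q Q) hb) (W.map_mem (fst Q Q) hy),
        mul_smul_comm, map_smul, ← mul_assoc, ← map_mul, W.push_snd]
    rw [e1]
    refine gr_induction (W.isInternal Z) (p := fun x =>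
      W.corr (W.map (fst Z Z) (W.map g a) * W.map (snd Z Z) (W.map g b)) x =
        W.map g (W.corr (W.map (fst P P) a * W.map (snd P P) b) (W.push g x))) ?_ ?_ x
    · intro l x hx
      rw [key Z _ _ _ i j l (W.map_mem g ha) (W.map_mem g hb) hx]
      by_cases h0 : W.tr Z (W.map g a * x) = 0
      · rw [h0, zero_smul, smul_zero]
        -- the right hand side
        have hx' := W.push_mem g hx
        by_cases hneg : (l : ℤ) + 2 * ((P.dim : ℤ) - Z.dim) < 0
        · rw [grZ_of_neg hneg] at hx'
          rw [(Submodule.mem_bot _).1 hx', map_zero, map_zero]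
        · obtain ⟨l', hl'⟩ := Int.eq_ofNat_of_zero_le (not_lt.1 hneg)
          rw [hl'] at hx'
          have hx'' : W.push g x ∈ W.gr P l' := by
            rw [← grZ_natCast (gr := W.gr P)]
            exact hx'
          rw [key P _ _ _ i j l' ha hb hx'']
          have h1 : W.tr P (a * W.push g x) = 0 := by
            rw [W.comm ha hx'', map_smul, W.tr_push, W.comm hx (W.map_mem g ha), map_smul, h0,
              smul_zero, smul_zero]
          rw [h1, zero_smul, smul_zero, map_zero]
      · have hdeg : i + l = 2 * Z.dim := by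
          by_contra hne
          exact h0 (W.tr_eq_zero (W.mul_mem (W.map_mem g ha) hx) hne)
        have hx' := W.push_mem g hx
        by_cases hneg : (l : ℤ) + 2 * ((P.dim : ℤ) - Z.dim) < 0
        · exfalso
          have hi : 2 * P.dim < i := by omega
          rw [W.gr_eq_bot P i hi, Submodule.mem_bot] at ha
          rw [ha, map_zero, zero_mul, map_zero] at h0
          exact h0 rfl
        · obtain ⟨l', hl'⟩ := Int.eq_ofNat_of_zero_le (not_lt.1 hneg)
          rw [hl'] at hx'
          have hx'' : W.push g x ∈ W.gr P l' := by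
            rw [← grZ_natCast (gr := W.gr P)]
            exact hx'
          rw [key P _ _ _ i j l' ha hb hx'', map_smul, map_smul]
          have hpar : (-1 : W.K) ^ (j * l) = (-1 : W.K) ^ (j * l') := by
            have h2 : l' % 2 = l % 2 := by omega
            have h3 : (j * l) % 2 = (j * l') % 2 := by
              rw [Nat.mul_mod, Nat.mul_mod j l', h2]
            rw [neg_one_pow_eq_pow_mod_two (n := j * l), neg_one_pow_eq_pow_mod_two (n := j * l'), h3]
          have hpar2 : (-1 : W.K) ^ (i * l') * (-1 : W.K) ^ (l * i) = 1 := by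
            rw [← pow_add]
            have h2 : l' % 2 = l % 2 := by omega
            refine Even.neg_one_pow ?_
            rw [Nat.even_add, mul_comm l i, Nat.even_mul, Nat.even_mul, Nat.even_iff (n := l'),
              Nat.even_iff (n := l), h2]
          have h1 : W.tr P (a * W.push g x) = W.tr Z (W.map g a * x) := by
            rw [W.comm ha hx'', map_smul, W.tr_push, W.comm hx (W.map_mem g ha), map_smul, smul_smul,
              hpar2, one_smul]
          rw [hpar, h1]
    · intro x y hx hy
      rw [map_add, hx, hy, map_add, map_add, map_add]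

/-- The projection to some of the factors `X`. -/
noncomputable def pj (Y X : 𝒱.Obj) {n m : ℕ} (τ : Fin (m + 1) → Fin (n + 1)) :
    Y.prod (pw X n) ⟶ pw X m :=
  snd Y (pw X n) ≫ tup m fun i => pr X n (τ i)

/-- The exponents of the polarisation. -/
noncomputable def ex (d : ℕ) {n m : ℕ} (τ : Fin (m + 1) → Fin (n + 1)) : Fin (n + 1) → ℕ :=
  Function.extend τ (fun _ => d - 1) fun _ => d

theorem map_pj {n m : ℕ} {τ : Fin (m + 1) → Fin (n + 1)}
    (hτP : ∀ w : Fin (m + 1) → W.H X, W.map (tup m fun i => pr X n (τ i)) (PP W X m w) =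
        PP W X n (Function.extend τ w fun _ => 1)) (w : Fin (m + 1) → W.H X) :
    W.map (pj Y X τ) (PP W X m w) = EE W Y X n 1 (Function.extend τ w fun _ => 1) := by
  rw [pj, W.map_comp, hτP, EE, map_one, one_mul]

theorem extend_gr {n m : ℕ} {τ : Fin (m + 1) → Fin (n + 1)} (hτ : Function.Injective τ)
    {w : Fin (m + 1) → W.H X} {e : Fin (m + 1) → ℕ} (hw : ∀ i, w i ∈ W.gr X (e i)) :
    ∀ t, Function.extend τ w (fun _ => (1 : W.H X)) t ∈
      W.gr X (Function.extend τ e (fun _ => 0) t) := by
  intro t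
  by_cases ht : ∃ i, τ i = t
  · obtain ⟨i, rfl⟩ := ht
    rw [hτ.extend_apply, hτ.extend_apply]
    exact hw i
  · rw [Function.extend_apply' _ _ _ ht, Function.extend_apply' _ _ _ ht]
    exact W.one_mem X

theorem sum_extend {n m : ℕ} {τ : Fin (m + 1) → Fin (n + 1)} (hτ : Function.Injective τ)
    (e : Fin (m + 1) → ℕ) (c : ℕ) :
    ∑ t, Function.extend τ e (fun _ => c) t + (m + 1) * c = ∑ i, e i + (n + 1) * c := by
  classical
  have h1 : ∑ t, Function.extend τ e (fun _ => c) t =
      ∑ t ∈ univ.image τ, Function.extend τ e (fun _ => c) t +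
        ∑ t ∈ (univ.image τ)ᶜ, Function.extend τ e (fun _ => c) t :=
    (sum_add_sum_compl _ _).symm
  have h2 : ∑ t ∈ univ.image τ, Function.extend τ e (fun _ => c) t = ∑ i, e i := by
    rw [sum_image fun i _ j _ h => hτ h]
    exact sum_congr rfl fun i _ => hτ.extend_apply _ _ _
  have h3 : ∑ t ∈ (univ.image τ)ᶜ, Function.extend τ e (fun _ => c) t =
      (univ.image τ)ᶜ.card * c := by
    rw [← smul_eq_mul, ← sum_const]
    refine sum_congr rfl fun t ht => Function.extend_apply' _ _ _ ?_
    rintro ⟨i, rfl⟩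
    exact (mem_compl.1 ht) (mem_image_of_mem _ (mem_univ _))
  have h4 : (univ.image τ)ᶜ.card + (m + 1) = n + 1 := by
    have h5 := card_compl_add_card (univ.image τ)
    rw [card_image_of_injective _ hτ, card_univ, Fintype.card_fin,
      Fintype.card_fin] at h5
    exact h5
  have h6 : ∀ K, K + (m + 1) = n + 1 → ∑ i, e i + K * c + (m + 1) * c = ∑ i, e i + (n + 1) * c := by
    intro K hK
    rw [← hK]
    ring
  rw [h1, h2, h3]
  exact h6 _ h4

/-- The Lefschetz operator on a good word, restricted to other factors. -/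
theorem push_off {hY : W.H Y} (hhY : hY ∈ algSpan W Y) {h : W.H X}
    (hh : h ∈ algSpan W X) (hg : h ∈ W.gr X 2) {n m : ℕ} {τ σ : Fin (m + 1) → Fin (n + 1)}
    (hτ : Function.Injective τ) (hσ : Function.Injective σ)
    (hτP : ∀ w : Fin (m + 1) → W.H X, W.map (tup m fun i => pr X n (τ i)) (PP W X m w) =
        PP W X n (Function.extend τ w fun _ => 1))
    (hσP : ∀ w : Fin (m + 1) → W.H X, W.map (tup m fun i => pr X n (σ i)) (PP W X m w) =
        PP W X n (Function.extend σ w fun _ => 1))
    (hne : ∃ i, ∀ j, τ j ≠ σ i) (r : ℕ) {b : Fin (m + 1) → W.H X} (hb : ∀ i, b i ∈ W.gr X 1) :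
    W.push (pj Y X τ) (LZ W hY h n ^ r * W.map (pj Y X σ) (PP W X m b)) = 0 := by
  refine ext_words fun w e hw => ?_
  rw [W.tr_push, map_pj hσP, map_pj hτP, zero_mul, map_zero, mul_assoc]
  obtain ⟨ε, hε, h1⟩ := EE_mul (W.one_mem Y) (W.one_mem Y)
    (extend_gr hσ (e := fun _ => 1) hb) (extend_gr hτ hw)
  obtain ⟨i, hi⟩ := hne
  have hodd : ¬ 2 ∣ Function.extend σ (fun _ => 1) (fun _ => 0) (σ i) +
      Function.extend τ e (fun _ => 0) (σ i) := by
    rw [hσ.extend_apply, Function.extend_apply' _ _ _ (fun ⟨j, hj⟩ => hi j hj)]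
    omega
  rw [h1, mul_smul_comm, map_smul, trZ_odd hhY hh hg n r (fun t => W.mul_mem
    (extend_gr hσ (e := fun _ => 1) hb t) (extend_gr hτ hw t)) hodd, smul_zero]

/-- The Lefschetz operator on a good word, restricted to its factors. -/
theorem push_on {hY : W.H Y} (hhY : hY ∈ algSpan W Y) (hgY : hY ∈ W.gr Y 2) {h : W.H X}
    (hh : h ∈ algSpan W X) (hg : h ∈ W.gr X 2) (hd : 0 < X.dim) {n m : ℕ}
    {τ : Fin (m + 1) → Fin (n + 1)} (hτ : Function.Injective τ)
    (hτP : ∀ w : Fin (m + 1) → W.H X, W.map (tup m fun i => pr X n (τ i)) (PP W X m w) =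
        PP W X n (Function.extend τ w fun _ => 1))
    {b : Fin (m + 1) → W.H X} (hb : ∀ i, b i ∈ W.gr X 1) {r : ℕ}
    (hr : r + (m + 1) = Y.dim + (n + 1) * X.dim) :
    W.push (pj Y X τ) (LZ W hY h n ^ r * W.map (pj Y X τ) (PP W X m b)) =
      (((Y.dim + ∑ t, ex X.dim τ t).choose Y.dim * mult n (ex X.dim τ) : ℕ) *
        W.tr Y (hY ^ Y.dim) * W.tr X (h ^ X.dim) ^ (n - m)) •
          PP W X m (fun i => h ^ (X.dim - 1) * b i) := by
  classical
  have hex : ∑ t, ex X.dim τ t + (m + 1) = (n + 1) * X.dim := by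
    have h1 := sum_extend hτ (fun _ => X.dim - 1) X.dim
    rw [sum_const, card_univ, Fintype.card_fin, smul_eq_mul] at h1
    have h2 : (m + 1) * (X.dim - 1) + (m + 1) = (m + 1) * X.dim := by
      rw [← Nat.mul_succ]
      congr 1
      omega
    have h3 : ∑ t, ex X.dim τ t = ∑ t, Function.extend τ (fun _ => X.dim - 1) (fun _ => X.dim) t :=
      rfl
    omega
  have hr' : r = Y.dim + ∑ t, ex X.dim τ t := by omega
  have hnm : m ≤ n := by
    have := Fintype.card_le_of_injective τ hτ
    rw [Fintype.card_fin, Fintype.card_fin] at this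
    omega
  refine ext_words fun w e hw => ?_
  rw [W.tr_push, mul_assoc, ← map_mul]
  obtain ⟨ε, hε, h1⟩ := PP_mul m hb hw
  have hr2 : PP W X m (fun i => h ^ (X.dim - 1) * b i) * PP W X m w =
      ε • PP W X m (fun i => h ^ (X.dim - 1) * (b i * w i)) := by
    rw [← PP_mul_alg m (x := fun _ => h ^ (X.dim - 1)) (y := b) (fun _ => algSpan_pow hh _),
      mul_assoc, h1, mul_smul_comm, PP_mul_alg m (x := fun _ => h ^ (X.dim - 1))
        (fun _ => algSpan_pow hh _)]
  rw [h1, map_smul, map_pj hτP, mul_smul_comm, map_smul, smul_mul_assoc, map_smul, hr2, map_smul,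
    tr_PP]
  by_cases hone : ∀ i, e i = 1
  · -- the main case
    have hu : ∀ t, Function.extend τ (fun i => b i * w i) (fun _ => (1 : W.H X)) t ∈
        W.gr X (2 * (X.dim - ex X.dim τ t)) := by
      intro t
      by_cases ht : ∃ i, τ i = t
      · obtain ⟨i, rfl⟩ := ht
        rw [hτ.extend_apply, ex, hτ.extend_apply]
        have h2 := W.mul_mem (hb i) (hw i)
        rw [hone i] at h2
        rwa [show 2 * (X.dim - (X.dim - 1)) = 1 + 1 by omega]
      · rw [Function.extend_apply' _ _ _ ht, ex, Function.extend_apply' _ _ _ ht, Nat.sub_self,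
          mul_zero]
        exact W.one_mem X
    have hq : ∀ t, ex X.dim τ t ≤ X.dim := by
      intro t
      by_cases ht : ∃ i, τ i = t
      · obtain ⟨i, rfl⟩ := ht
        rw [ex, hτ.extend_apply]
        omega
      · rw [ex, Function.extend_apply' _ _ _ ht]
    rw [hr', trZ_even hhY hgY hh hg n hq hu, smul_eq_mul, smul_eq_mul, smul_eq_mul]
    have h3 : ∏ t, W.tr X (h ^ ex X.dim τ t *
        Function.extend τ (fun i => b i * w i) (fun _ => (1 : W.H X)) t) =
        W.tr X (h ^ X.dim) ^ (n - m) * ∏ i, W.tr X (h ^ (X.dim - 1) * (b i * w i)) := by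
      rw [← prod_mul_prod_compl (univ.image τ), prod_image fun i _ j _ h => hτ h, mul_comm]
      congr 1
      · have h4 : (univ.image τ)ᶜ.card = n - m := by
          rw [card_compl, card_image_of_injective _ hτ, card_univ, Fintype.card_fin,
            Fintype.card_fin]
          omega
        rw [← h4, ← prod_const]
        refine prod_congr rfl fun t ht => ?_
        have ht' : ¬ ∃ i, τ i = t := by
          rintro ⟨i, rfl⟩
          exact (mem_compl.1 ht) (mem_image_of_mem _ (mem_univ _))
        rw [Function.extend_apply' _ _ _ ht', ex, Function.extend_apply' _ _ _ ht', mul_one]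
      · refine prod_congr rfl fun i _ => ?_
        rw [hτ.extend_apply, ex, hτ.extend_apply]
    rw [h3]
    ring
  · -- all traces vanish
    by_cases hsum : ∑ i, e i = m + 1
    · -- some degree is zero
      obtain ⟨i, hi⟩ : ∃ i, e i = 0 := by
        by_contra hcon
        push Not at hcon
        apply hone
        have h2 : ∀ i ∈ (univ : Finset (Fin (m + 1))), 1 ≤ e i := fun i _ =>
          Nat.one_le_iff_ne_zero.2 (hcon i)
        have h3 : ∑ _i : Fin (m + 1), 1 = ∑ i, e i := by
          rw [hsum]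
          simp
        have h4 := (sum_eq_sum_iff_of_le h2).1 h3
        exact fun i => (h4 i (mem_univ _)).symm
      have hodd : ¬ 2 ∣ Function.extend τ (fun i => 1 + e i) (fun _ => 0) (τ i) := by
        rw [hτ.extend_apply, hi]
        omega
      rw [trZ_odd hhY hh hg n r (extend_gr hτ (fun i => W.mul_mem (hb i) (hw i))) hodd,
        prod_eq_zero (mem_univ i), smul_zero, smul_zero]
      refine W.tr_eq_zero (W.mul_mem (gr_pow hg _) (W.mul_mem (hb i) (hw i))) ?_
      rw [hi]
      omega
    · have h2 : W.tr (Y.prod (pw X n)) (LZ W hY h n ^ r *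
          EE W Y X n 1 (Function.extend τ (fun i => b i * w i) fun _ => 1)) = 0 := by
        refine W.tr_eq_zero (W.mul_mem (gr_pow (LZ_gr hgY hg n) r) (EE_gr (W.one_mem Y)
          (extend_gr hτ (fun i => W.mul_mem (hb i) (hw i))))) ?_
        have h3 := sum_extend hτ (fun i => 1 + e i) 0
        rw [sum_add_distrib, sum_const, card_univ, Fintype.card_fin, smul_eq_mul] at h3
        rw [dim_prod, dim_pw]
        omega
      have h4 : ∃ i, W.tr X (h ^ (X.dim - 1) * (b i * w i)) = 0 := by
        by_contra hcon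
        push Not at hcon
        apply hone
        intro i
        by_contra h5
        exact hcon i (W.tr_eq_zero (W.mul_mem (gr_pow hg _) (W.mul_mem (hb i) (hw i))) (by omega))
      obtain ⟨i, hi⟩ := h4
      rw [h2, prod_eq_zero (mem_univ i) hi, smul_zero, smul_zero]

end Pool.Agent.H858.AB
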