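import Pool.Agent.H858.AB.Cnt
import Pool.Agent.H858.AD.Ext

/-!
# Powers of a product polarisation
-/

set_option autoImplicit false
set_option linter.unusedSectionVars false
set_option linter.unusedVariables false

open CategoryTheory AlgebraicGeometry Finset

universe u v w

namespace Pool.Agent.H858.AB

open Pool.Agent.H914 hiding iter map_iter
open Pool.Agent.H447 Pool.Agent.W534 VarClass Obj WeilCohomology
open Pool.Agent.H281R3.HT Pool.Agent.W536.RR
open Pool.Agent.Y163 (pw pr tup tup_pr pw_hom_ext pr_zero_succ pr_succ dim_pw HBasis dualEq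
  dualEq_apply mon mon_eq exists_monBasis)
open Pool.Agent.H858.FC (PP PP_eq PP_gr PP_mul tr_PP PP_alg prod_filter_one)
open Pool.Agent.H858.AD (EE EE_gr EE_mul tr_EE EE_alg)

variable {k : Type u} [Field k] {𝒱 : VarClass k} {ops : CycleOps 𝒱}
  {W : WeilCohomology.{u, v} ops} {X Y Z S : 𝒱.Obj}

/-- The product polarisation on the power. -/
noncomputable def Ln (W : WeilCohomology.{u, v} ops) {X : 𝒱.Obj} (h : W.H X) :
    ∀ n, W.H (pw X n)
  | 0 => h
  | n + 1 => W.map (fst X (pw X n)) h + W.map (snd X (pw X n)) (Ln W h n)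

/-- The product polarisation on `Y × X ^ (n + 1)`. -/
noncomputable def LZ (W : WeilCohomology.{u, v} ops) {X Y : 𝒱.Obj} (hY : W.H Y) (h : W.H X)
    (n : ℕ) : W.H (Y.prod (pw X n)) :=
  W.map (fst Y (pw X n)) hY + W.map (snd Y (pw X n)) (Ln W h n)

/-- The multinomial coefficients. -/
def mult : ∀ n : ℕ, (Fin (n + 1) → ℕ) → ℕ
  | 0, _ => 1
  | n + 1, q => (∑ i, q i).choose (q 0) * mult n (Fin.tail q)

theorem mult_ne : ∀ (n : ℕ) (q : Fin (n + 1) → ℕ), mult n q ≠ 0
  | 0, _ => one_ne_zero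
  | n + 1, q => by
    rw [mult]
    refine mul_ne_zero ?_ (mult_ne n _)
    refine (Nat.choose_pos ?_).ne'
    exact single_le_sum (f := q) (fun i _ => Nat.zero_le _) (mem_univ 0)

theorem Ln_alg {h : W.H X} (hh : h ∈ algSpan W X) : ∀ n, Ln W h n ∈ algSpan W (pw X n)
  | 0 => hh
  | n + 1 => Submodule.add_mem _ (algSpan_map _ hh) (algSpan_map _ (Ln_alg hh n))

theorem Ln_gr {h : W.H X} (hh : h ∈ W.gr X 2) : ∀ n, Ln W h n ∈ W.gr (pw X n) 2
  | 0 => hh
  | n + 1 => Submodule.add_mem _ (W.map_mem _ hh) (W.map_mem _ (Ln_gr hh n))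

theorem LZ_alg {hY : W.H Y} (hhY : hY ∈ algSpan W Y) {h : W.H X} (hh : h ∈ algSpan W X) (n : ℕ) :
    LZ W hY h n ∈ algSpan W (Y.prod (pw X n)) :=
  Submodule.add_mem _ (algSpan_map _ hhY) (algSpan_map _ (Ln_alg hh n))

theorem LZ_gr {hY : W.H Y} (hhY : hY ∈ W.gr Y 2) {h : W.H X} (hh : h ∈ W.gr X 2) (n : ℕ) :
    LZ W hY h n ∈ W.gr (Y.prod (pw X n)) 2 :=
  Submodule.add_mem _ (W.map_mem _ hhY) (W.map_mem _ (Ln_gr hh n))

theorem gr_pow {h : W.H X} (hh : h ∈ W.gr X 2) (n : ℕ) : h ^ n ∈ W.gr X (2 * n) := by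
  induction n with
  | zero =>
    rw [pow_zero]
    exact W.one_mem X
  | succ n ih =>
    rw [pow_succ]
    have := W.mul_mem ih hh
    rwa [show 2 * n + 2 = 2 * (n + 1) by ring] at this

theorem algSpan_pow {h : W.H X} (hh : h ∈ algSpan W X) (r : ℕ) : h ^ r ∈ algSpan W X := by
  induction r with
  | zero =>
    rw [pow_zero]
    exact one_mem_algSpan
  | succ r ih =>
    rw [pow_succ]
    exact algSpan_mul ih hh

/-- The binomial formula for the trace of a power of a sum of pull-backs. -/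
theorem tr_binom {a : W.H X} (ha : a ∈ algSpan W X) {b : W.H Y} (hb : b ∈ algSpan W Y) (r : ℕ)
    (x : W.H X) (y : W.H Y) :
    W.tr (X.prod Y) ((W.map (fst X Y) a + W.map (snd X Y) b) ^ r *
      (W.map (fst X Y) x * W.map (snd X Y) y)) =
      ∑ m ∈ range (r + 1), (r.choose m : W.K) * (W.tr X (a ^ m * x) * W.tr Y (b ^ (r - m) * y)) := by
  have hc : Commute (W.map (fst X Y) a) (W.map (snd X Y) b) := algSpan_comm (algSpan_map _ ha) _
  rw [hc.add_pow, Finset.sum_mul, map_sum]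
  refine sum_congr rfl fun m _ => ?_
  have h1 : W.map (fst X Y) a ^ m * W.map (snd X Y) b ^ (r - m) * (r.choose m : W.H (X.prod Y)) *
      (W.map (fst X Y) x * W.map (snd X Y) y) = (r.choose m : W.K) •
      (W.map (fst X Y) (a ^ m * x) * W.map (snd X Y) (b ^ (r - m) * y)) := by
    have h2 : (r.choose m : W.H (X.prod Y)) = (r.choose m : W.K) • 1 := by
      rw [Nat.cast_smul_eq_nsmul, nsmul_eq_mul, mul_one]
    rw [h2, mul_smul_comm, mul_one, smul_mul_assoc]
    congr 1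
    rw [map_mul, map_mul, map_pow, map_pow]
    have h3 : W.map (snd X Y) b ^ (r - m) * W.map (fst X Y) x =
        W.map (fst X Y) x * W.map (snd X Y) b ^ (r - m) :=
      algSpan_comm (algSpan_pow (algSpan_map _ hb) _) _
    rw [mul_assoc, ← mul_assoc (W.map (snd X Y) b ^ (r - m)), h3]
    simp only [mul_assoc]
  rw [h1, map_smul, W.tr_prod, smul_eq_mul]

/-- Words with a factor of odd degree. -/
theorem tr_odd {h : W.H X} (hh : h ∈ algSpan W X) (hg : h ∈ W.gr X 2) : ∀ (n r : ℕ)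
    {u : Fin (n + 1) → W.H X} {d : Fin (n + 1) → ℕ} (_ : ∀ i, u i ∈ W.gr X (d i))
    {t : Fin (n + 1)} (_ : ¬ 2 ∣ d t), W.tr (pw X n) (Ln W h n ^ r * PP W X n u) = 0
  | 0, r, u, d, hu, t, ht => by
    have ht0 : t = 0 := Fin.ext (by omega)
    subst ht0
    exact W.tr_eq_zero (W.mul_mem (gr_pow hg r) (hu 0)) (by
      change 2 * r + d 0 ≠ 2 * X.dim
      omega)
  | n + 1, r, u, d, hu, t, ht => by
    change W.tr (X.prod (pw X n)) ((W.map (fst X (pw X n)) h + W.map (snd X (pw X n)) (Ln W h n)) ^ r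
      * (W.map (fst X (pw X n)) (u 0) * W.map (snd X (pw X n)) (PP W X n (Fin.tail u)))) = 0
    rw [tr_binom hh (Ln_alg hh n)]
    refine sum_eq_zero fun m _ => ?_
    refine Fin.cases (fun ht => ?_) (fun t ht => ?_) t ht
    · rw [W.tr_eq_zero (W.mul_mem (gr_pow hg m) (hu 0)) (by omega), zero_mul, mul_zero]
    · rw [tr_odd hh hg n (r - m) (u := Fin.tail u) (fun i => hu i.succ) ht, mul_zero, mul_zero]

/-- Words with factors of even degrees. -/
theorem tr_even {h : W.H X} (hh : h ∈ algSpan W X) (hg : h ∈ W.gr X 2) : ∀ (n : ℕ)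
    {u : Fin (n + 1) → W.H X} {q : Fin (n + 1) → ℕ} (_ : ∀ i, q i ≤ X.dim)
    (_ : ∀ i, u i ∈ W.gr X (2 * (X.dim - q i))),
    W.tr (pw X n) (Ln W h n ^ (∑ i, q i) * PP W X n u) =
      (mult n q : W.K) * ∏ i, W.tr X (h ^ q i * u i)
  | 0, u, q, hq, hu => by
    rw [Fin.sum_univ_one, Fin.prod_univ_one, mult, Nat.cast_one, one_mul]
    rfl
  | n + 1, u, q, hq, hu => by
    change W.tr (X.prod (pw X n)) ((W.map (fst X (pw X n)) h + W.map (snd X (pw X n)) (Ln W h n)) ^
      (∑ i, q i) * (W.map (fst X (pw X n)) (u 0) * W.map (snd X (pw X n)) (PP W X n (Fin.tail u))))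
      = _
    rw [tr_binom hh (Ln_alg hh n), Finset.sum_eq_single (q 0)]
    · have h1 : ∑ i, q i - q 0 = ∑ i, Fin.tail q i := by
        rw [Fin.sum_univ_succ, Nat.add_sub_cancel_left]
        rfl
      rw [h1, tr_even hh hg n (u := Fin.tail u) (q := Fin.tail q) (fun i => hq i.succ)
        (fun i => hu i.succ), mult, Fin.prod_univ_succ (fun i => W.tr X (h ^ q i * u i)),
        show (∏ i : Fin (n + 1), W.tr X (h ^ Fin.tail q i * Fin.tail u i)) =
          ∏ i : Fin (n + 1), W.tr X (h ^ q i.succ * u i.succ) from rfl]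
      push_cast
      ring
    · intro m _ hm
      rw [W.tr_eq_zero (W.mul_mem (gr_pow hg m) (hu 0)) (by
        have := hq 0
        omega), zero_mul, mul_zero]
    · intro h1
      exfalso
      apply h1
      rw [mem_range]
      exact Nat.lt_succ_of_le (single_le_sum (f := q) (fun i _ => Nat.zero_le _) (mem_univ 0))

/-- Words with a factor of odd degree on `Y × X ^ (n + 1)`. -/
theorem trZ_odd {hY : W.H Y} (hhY : hY ∈ algSpan W Y) {h : W.H X}
    (hh : h ∈ algSpan W X) (hg : h ∈ W.gr X 2) (n r : ℕ)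
    {u : Fin (n + 1) → W.H X} {d : Fin (n + 1) → ℕ} (hu : ∀ i, u i ∈ W.gr X (d i))
    {t : Fin (n + 1)} (ht : ¬ 2 ∣ d t) (y : W.H Y) :
    W.tr (Y.prod (pw X n)) (LZ W hY h n ^ r * EE W Y X n y u) = 0 := by
  rw [LZ, EE, tr_binom hhY (Ln_alg hh n)]
  refine sum_eq_zero fun m _ => ?_
  rw [tr_odd hh hg n (r - m) hu ht, mul_zero, mul_zero]

/-- Words with factors of even degrees on `Y × X ^ (n + 1)`. -/
theorem trZ_even {hY : W.H Y} (hhY : hY ∈ algSpan W Y) (hgY : hY ∈ W.gr Y 2) {h : W.H X}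
    (hh : h ∈ algSpan W X) (hg : h ∈ W.gr X 2) (n : ℕ)
    {u : Fin (n + 1) → W.H X} {q : Fin (n + 1) → ℕ} (hq : ∀ i, q i ≤ X.dim)
    (hu : ∀ i, u i ∈ W.gr X (2 * (X.dim - q i))) :
    W.tr (Y.prod (pw X n)) (LZ W hY h n ^ (Y.dim + ∑ i, q i) * EE W Y X n 1 u) =
      ((Y.dim + ∑ i, q i).choose Y.dim * mult n q : ℕ) * W.tr Y (hY ^ Y.dim) *
        ∏ i, W.tr X (h ^ q i * u i) := by
  rw [LZ, EE, tr_binom hhY (Ln_alg hh n), Finset.sum_eq_single Y.dim]
  · rw [Nat.add_sub_cancel_left, tr_even hh hg n hq hu, mul_one]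
    push_cast
    ring
  · intro m _ hm
    rw [mul_one, W.tr_eq_zero (gr_pow hgY m) (by omega), zero_mul, mul_zero]
  · intro h1
    exfalso
    apply h1
    rw [mem_range]
    omega

/-- External products with even classes. -/
theorem PP_mul_alg : ∀ (n : ℕ) {x y : Fin (n + 1) → W.H X} (_ : ∀ i, x i ∈ algSpan W X),
    PP W X n x * PP W X n y = PP W X n (fun i => x i * y i)
  | 0, x, y, _ => rfl
  | n + 1, x, y, hx => by
    have ih := PP_mul_alg n (x := Fin.tail x) (y := Fin.tail y) (fun i => hx i.succ)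
    change W.map (fst X (pw X n)) (x 0) * W.map (snd X (pw X n)) (PP W X n (Fin.tail x)) *
      (W.map (fst X (pw X n)) (y 0) * W.map (snd X (pw X n)) (PP W X n (Fin.tail y))) =
      W.map (fst X (pw X n)) (x 0 * y 0) * W.map (snd X (pw X n))
        (PP W X n (fun i => Fin.tail x i * Fin.tail y i))
    rw [← ih, map_mul, map_mul, mul_assoc, ← mul_assoc (W.map (snd X (pw X n)) _),
      algSpan_comm (algSpan_map (snd X (pw X n)) (PP_alg n (x := Fin.tail x) fun i => hx i.succ))]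
    simp only [mul_assoc]

theorem PP_smul : ∀ (n : ℕ) (s : Fin (n + 1) → W.K) (x : Fin (n + 1) → W.H X),
    PP W X n (fun i => s i • x i) = (∏ i, s i) • PP W X n x
  | 0, s, x => by
    rw [Fin.prod_univ_one]
    rfl
  | n + 1, s, x => by
    change W.map (fst X (pw X n)) (s 0 • x 0) * W.map (snd X (pw X n))
      (PP W X n (fun i => Fin.tail s i • Fin.tail x i)) = _
    rw [PP_smul n, map_smul, map_smul, smul_mul_smul_comm, Fin.prod_univ_succ s]
    rfl

/-- Classes on a power are determined by their traces with words. -/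
theorem ext_words {m : ℕ} {z z' : W.H (pw X m)} (h : ∀ (w : Fin (m + 1) → W.H X)
    (e : Fin (m + 1) → ℕ), (∀ i, w i ∈ W.gr X (e i)) →
      W.tr (pw X m) (z * PP W X m w) = W.tr (pw X m) (z' * PP W X m w)) : z = z' := by
  obtain ⟨ι, hι, ⟨B⟩⟩ := Pool.Agent.Y163.exists_hbasis W X
  have := Fintype.ofFinite ι
  obtain ⟨bm, hbm⟩ := exists_monBasis B m
  rw [← sub_eq_zero]
  apply W.nondeg
  intro y
  rw [← bm.sum_repr y, Finset.mul_sum, map_sum]
  refine sum_eq_zero fun J _ => ?_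
  rw [mul_smul_comm, map_smul, hbm, Pool.Agent.H858.AD.mon_PP, sub_mul, map_sub,
    h _ (fun i => B.deg (J i)) (fun i => B.mem _), sub_self, smul_zero]

end Pool.Agent.H858.AB
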